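import Pool.Agent.X96.TD.C

/-!
Reflected Thomas-Fermi density differences are not monotone in the electron number: two point nuclei,
one on the plane `x₀ = 0` and one in the half-space `x₀ > 0`.
-/

set_option autoImplicit false

open MeasureTheory Set Filter Topology

namespace Pool.Agent.Results.MP_d10cfe_mp.NotMonotone

/-- Physical space. -/
abbrev E3 := EuclideanSpace ℝ (Fin 3)

/-- The nuclear potential of point nuclei with charges `z j` at `R j`. -/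
noncomputable def V {k : ℕ} (z : Fin k → ℝ) (R : Fin k → E3) (x : E3) : ℝ :=
  ∑ j, z j / ‖x - R j‖

/-- The Coulomb potential of a density. -/
noncomputable def pot (ρ : E3 → ℝ) (x : E3) : ℝ := ∫ y, ρ y / ‖x - y‖

/-- Admissible densities: nonnegative, in `L¹ ∩ L^(5/3)`. -/
def Adm (ρ : E3 → ℝ) : Prop :=
  (∀ x, 0 ≤ ρ x) ∧ Integrable ρ ∧ Integrable (fun x => ρ x ^ (5 / 3 : ℝ))

/-- The Thomas-Fermi functional. -/
noncomputable def TF {k : ℕ} (γ : ℝ) (z : Fin k → ℝ) (R : Fin k → E3) (ρ : E3 → ℝ) : ℝ :=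
  3 / 5 * γ * (∫ x, ρ x ^ (5 / 3 : ℝ)) - (∫ x, V z R x * ρ x)
    + 1 / 2 * ∫ x, ∫ y, ρ x * ρ y / ‖x - y‖

/-- `ρ` is the Thomas-Fermi density with electron number `lam`: it minimises the functional among the
admissible densities of mass `lam`, and it satisfies the Thomas-Fermi equation pointwise, with a
chemical potential `μ ≥ 0`. -/
def IsTF {k : ℕ} (γ : ℝ) (z : Fin k → ℝ) (R : Fin k → E3) (lam : ℝ) (ρ : E3 → ℝ) : Prop :=
  Adm ρ ∧ ∫ x, ρ x = lam ∧ (∀ σ, Adm σ → ∫ x, σ x = lam → TF γ z R ρ ≤ TF γ z R σ) ∧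
    ∃ μ, 0 ≤ μ ∧ ∀ x, γ * ρ x ^ (2 / 3 : ℝ) = max (V z R x - pot ρ x - μ) 0

/-- The mirror image of `x` in the plane `x₀ = 0`. -/
noncomputable def mir (x : E3) : E3 := x - (2 * x 0) • EuclideanSpace.single 0 1

open Pool.Agent.Helper557 Pool.Agent.Helper557.TFP Pool.Agent.H9R2.TF Pool.Agent.X96.TD in
theorem mir_eq (x : E3) : mir x = sg x := by
  unfold mir sg TFP.refl
  rw [inner_e0, sub_zero]
  rfl

open Pool.Agent.H9R2.TF in
theorem scale_EF {k : ℕ} {γ : ℝ} (hγ : 0 < γ) (z : Fin k → ℝ) (R : Fin k → E3) (σ : E3 → ℝ)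
    (h0 : ∀ x, 0 ≤ σ x) :
    TF γ z R σ = γ ^ 6 * EF (fun j => z j / γ ^ 3) R (fun x => σ x / γ ^ 3) := by
  have hγ3 : (0 : ℝ) < γ ^ 3 := by positivity
  have e1 : (∫ x, (σ x / γ ^ 3) ^ (5 / 3 : ℝ)) = (∫ x, σ x ^ (5 / 3 : ℝ)) / γ ^ 5 := by
    rw [← integral_div]
    refine integral_congr_ae (Eventually.of_forall fun x => ?_)
    simp only
    rw [Real.div_rpow (h0 x) hγ3.le, ← Real.rpow_natCast γ 3, ← Real.rpow_mul hγ.le]
    norm_num
  have e2 : (∫ x, VV (fun j => z j / γ ^ 3) R x * (σ x / γ ^ 3))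
      = (∫ x, V z R x * σ x) / γ ^ 6 := by
    rw [← integral_div]
    refine integral_congr_ae (Eventually.of_forall fun x => ?_)
    simp only
    have : VV (fun j => z j / γ ^ 3) R x = V z R x / γ ^ 3 := by
      unfold VV V
      rw [Finset.sum_div]
      refine Finset.sum_congr rfl fun j _ => ?_
      field_simp
    rw [this]
    field_simp
  have e3 : (∫ x, (σ x / γ ^ 3) * Pool.Agent.Helper557.TFP.pot (fun x => σ x / γ ^ 3) x)
      = (∫ x, ∫ y, σ x * σ y / ‖x - y‖) / γ ^ 6 := by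
    rw [← integral_div]
    refine integral_congr_ae (Eventually.of_forall fun x => ?_)
    simp only
    unfold Pool.Agent.Helper557.TFP.pot
    rw [← integral_const_mul, ← integral_div]
    refine integral_congr_ae (Eventually.of_forall fun y => ?_)
    simp only
    field_simp
  unfold TF EF
  rw [e1, e2, e3]
  field_simp

open Pool.Agent.Helper557 Pool.Agent.Helper557.TFP Pool.Agent.H9R2.TF Pool.Agent.X96.TD in
theorem isTF_of {γ : ℝ} (hγ : 0 < γ) {z : Fin 2 → ℝ} {R : Fin 2 → E3} {Φ : ℝ} (hΦ : 0 < Φ)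
    {ρ : E3 → ℝ} (h : ELs (fun j => z j / γ ^ 3) R Φ ρ) :
    IsTF γ z R (γ ^ 3 * ∫ x, ρ x) (fun x => γ ^ 3 * ρ x) := by
  have hγ3 : (0 : ℝ) < γ ^ 3 := by positivity
  have a0 : ∀ x, 0 ≤ γ ^ 3 * ρ x := fun x => mul_nonneg hγ3.le (h.nonneg x)
  refine ⟨⟨a0, h.nice.2.1.const_mul _, ?_⟩, integral_const_mul _ _, ?_, γ ^ 3 * Φ, by positivity,
    fun x => ?_⟩
  · have : (fun x => (γ ^ 3 * ρ x) ^ (5 / 3 : ℝ))
        = fun x => (γ ^ 3) ^ (5 / 3 : ℝ) * |ρ x| ^ (5 / 3 : ℝ) := by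
      funext x
      rw [Real.mul_rpow hγ3.le (h.nonneg x), abs_of_nonneg (h.nonneg x)]
    rw [this]
    exact h.nice.2.2.const_mul _
  · intro σ hσ hm
    rw [scale_EF hγ z R _ a0, scale_EF hγ z R σ hσ.1]
    refine mul_le_mul_of_nonneg_left ?_ (by positivity)
    have e : (fun x => γ ^ 3 * ρ x / γ ^ 3) = ρ := by
      funext x
      field_simp
    rw [e]
    -- a measurable representative
    have hA : AA (fun x => σ x / γ ^ 3) := by
      refine ⟨fun x => div_nonneg (hσ.1 x) hγ3.le, hσ.2.1.div_const _, ?_⟩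
      have : (fun x => (σ x / γ ^ 3) ^ ((5 : ℝ) / 3))
          = fun x => σ x ^ (5 / 3 : ℝ) / (γ ^ 3) ^ (5 / 3 : ℝ) := by
        funext x
        rw [Real.div_rpow (hσ.1 x) hγ3.le]
      rw [this]
      exact hσ.2.2.div_const _
    obtain ⟨τ, hτ, hae⟩ := AA_mod hA
    rw [← FE_eq (fun x => σ x / γ ^ 3), FE_congr hae, FE_eq]
    refine ELs_min h (nice_of_adm hτ) hτ.2.1 ?_
    rw [← integral_congr_ae hae, integral_div, hm]
    field_simp
  · -- the Thomas-Fermi equation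
    have h1 : ρ x ^ (2 / 3 : ℝ) = max (VV (fun j => z j / γ ^ 3) R x - TFP.pot ρ x - Φ) 0 := by
      conv_lhs => rw [h.eq x]
      exact be_pow _
    have h2 : γ * (γ ^ 3 * ρ x) ^ (2 / 3 : ℝ) = γ ^ 3 * ρ x ^ (2 / 3 : ℝ) := by
      rw [Real.mul_rpow hγ3.le (h.nonneg x), ← Real.rpow_natCast γ 3, ← Real.rpow_mul hγ.le]
      norm_num
      ring
    have h3 : V z R x - pot (fun x => γ ^ 3 * ρ x) x - γ ^ 3 * Φ
        = γ ^ 3 * (VV (fun j => z j / γ ^ 3) R x - TFP.pot ρ x - Φ) := by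
      have e1 : pot (fun x => γ ^ 3 * ρ x) x = γ ^ 3 * TFP.pot ρ x := by
        unfold pot TFP.pot
        rw [← integral_const_mul]
        refine integral_congr_ae (Eventually.of_forall fun y => ?_)
        simp only
        ring
      have e2 : V z R x = γ ^ 3 * VV (fun j => z j / γ ^ 3) R x := by
        unfold VV V
        rw [Finset.mul_sum]
        refine Finset.sum_congr rfl fun j _ => ?_
        field_simp
      rw [e1, e2]
      ring
    rw [h2, h3, h1, mul_max_of_nonneg _ _ hγ3.le, mul_zero]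

/-- For all `γ > 0`, all charges `z₀, z₁ > 0` and all positions `R₀` in the plane `x₀ = 0`, `R₁` in
the half-space `x₀ > 0`, there are electron numbers `0 < λ' < λ < z₀ + z₁`, Thomas-Fermi densities
`ρ'`, `ρ` with these electron numbers, and a point `x` of the half-space (different from `R₁`) with
`ρ(x) - ρ(x*) < ρ'(x) - ρ'(x*)`. -/
theorem result : ∀ γ : ℝ, 0 < γ → ∀ z : Fin 2 → ℝ, (∀ j, 0 < z j) → ∀ R : Fin 2 → E3,
    (R 0) 0 = 0 → 0 < (R 1) 0 → ∃ (lam' lam : ℝ) (ρ' ρ : E3 → ℝ), 0 < lam' ∧ lam' < lam ∧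
      lam < ∑ j, z j ∧ IsTF γ z R lam' ρ' ∧ IsTF γ z R lam ρ ∧
      ∃ x : E3, 0 < x 0 ∧ x ≠ R 1 ∧ ρ x - ρ (mir x) < ρ' x - ρ' (mir x) := by
  intro γ hγ z hz R h0 h1
  have hγ3 : (0 : ℝ) < γ ^ 3 := by positivity
  obtain ⟨Φ, Φ', ρ, ρ', hΦ, hΦ', h, h', ⟨x, x0, x1, hx⟩, k2, k3, k4⟩ :=
    Pool.Agent.X96.TD.exists_pair (z := fun j => z j / γ ^ 3) (R := R)
      (fun j => div_pos (hz j) hγ3) h0 h1
  refine ⟨γ ^ 3 * ∫ x, ρ' x, γ ^ 3 * ∫ x, ρ x, fun x => γ ^ 3 * ρ' x, fun x => γ ^ 3 * ρ x,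
    mul_pos hγ3 k3, mul_lt_mul_of_pos_left k2 hγ3, ?_, isTF_of hγ hΦ' h', isTF_of hγ hΦ h,
    x, x0, x1, ?_⟩
  · have := mul_lt_mul_of_pos_left k4 hγ3
    refine this.trans_le (le_of_eq ?_)
    rw [Finset.mul_sum]
    refine Finset.sum_congr rfl fun j _ => ?_
    field_simp
  · simp only [mir_eq]
    have := mul_lt_mul_of_pos_left hx hγ3
    linarith

end Pool.Agent.Results.MP_d10cfe_mp.NotMonotone
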